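import Pool.Agent.H78.GS.TF3

set_option autoImplicit false

open Finset Pool.Agent.H6.N4D Pool.Agent.H78.GS

namespace Pool.Agent.H50.GS3

lemma par_conj {b : ℕ} [NeZero b] (χ : DirichletCharacter ℂ b) {c : ZMod b} (hc : IsUnit c) :
    (starRingEnd ℂ) (χ c) = χ c⁻¹ := by
  obtain ⟨u, rfl⟩ := hc
  have h1 : ‖χ (u : ZMod b)‖ = 1 := DirichletCharacter.unit_norm_eq_one χ u
  have h2 : χ (u : ZMod b) * (starRingEnd ℂ) (χ (u : ZMod b)) = 1 := by
    rw [Complex.mul_conj, Complex.normSq_eq_norm_sq, h1]; simp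
  have h3 : χ (u : ZMod b) * χ ((u : ZMod b)⁻¹) = 1 := by
    rw [← map_mul, ZMod.mul_inv_of_unit _ u.isUnit, map_one]
  have h4 : χ (u : ZMod b) ≠ 0 := by
    intro h5
    rw [h5, norm_zero] at h1
    exact zero_ne_one h1
  exact mul_left_cancel₀ h4 (h2.trans h3.symm)

lemma par_sum {b : ℕ} [NeZero b] (a c : ZMod b) :
    ∑ χ : DirichletCharacter ℂ b, χ a * (starRingEnd ℂ) (χ c) =
      if IsUnit c ∧ c = a then (Nat.totient b : ℂ) else 0 := by
  by_cases hc : IsUnit c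
  · have h1 : ∑ χ : DirichletCharacter ℂ b, χ a * (starRingEnd ℂ) (χ c) =
        ∑ χ : DirichletCharacter ℂ b, χ c⁻¹ * χ a :=
      sum_congr rfl fun χ _ => by rw [par_conj χ hc, mul_comm]
    rw [h1, DirichletCharacter.sum_char_inv_mul_char_eq ℂ hc a]
    by_cases h2 : c = a
    · rw [if_pos h2, if_pos ⟨hc, h2⟩]
    · rw [if_neg h2, if_neg fun h => h2 h.2]
  · rw [if_neg fun h => hc h.1]
    apply sum_eq_zero
    intro χ _
    rw [MulChar.map_nonunit χ hc, map_zero, mul_zero]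

theorem pf_PAR : T_PAR := by
  intro b z hb
  have : NeZero b := ⟨by omega⟩
  apply Complex.ofReal_injective
  push_cast
  have h1 : ∀ χ : DirichletCharacter ℂ b,
      ((‖∑ a ∈ range b, χ (a : ZMod b) * z a‖ : ℝ) : ℂ) ^ 2 =
      ∑ a ∈ range b, ∑ c ∈ range b, (χ (a : ZMod b) * (starRingEnd ℂ) (χ (c : ZMod b))) *
        (z a * (starRingEnd ℂ) (z c)) := by
    intro χ
    rw [← Complex.mul_conj', map_sum, sum_mul_sum]
    apply sum_congr rfl
    intro a _
    apply sum_congr rfl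
    intro c _
    rw [map_mul]; ring
  have h2 : ∑ χ : DirichletCharacter ℂ b,
      ((‖∑ a ∈ range b, χ (a : ZMod b) * z a‖ : ℝ) : ℂ) ^ 2 =
      ∑ a ∈ range b, ∑ c ∈ range b,
        (∑ χ : DirichletCharacter ℂ b, χ (a : ZMod b) * (starRingEnd ℂ) (χ (c : ZMod b))) *
        (z a * (starRingEnd ℂ) (z c)) := by
    rw [sum_congr rfl fun χ _ => h1 χ, sum_comm]
    apply sum_congr rfl
    intro a _
    rw [sum_comm]
    apply sum_congr rfl
    intro c _
    rw [sum_mul]
  rw [h2, mul_sum, sum_filter]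
  apply sum_congr rfl
  intro a ha
  rw [mem_range] at ha
  have h3 : ∀ c ∈ range b,
      (∑ χ : DirichletCharacter ℂ b, χ (a : ZMod b) * (starRingEnd ℂ) (χ (c : ZMod b))) *
        (z a * (starRingEnd ℂ) (z c)) =
      if c = a then (if Nat.Coprime a b then (Nat.totient b : ℂ) * (‖z a‖ : ℂ) ^ 2 else 0)
        else 0 := by
    intro c hc
    rw [mem_range] at hc
    rw [par_sum]
    by_cases h4 : c = a
    · rw [if_pos h4, h4]
      by_cases h5 : Nat.Coprime a b
      · have h6 : IsUnit (a : ZMod b) := (ZMod.isUnit_iff_coprime a b).mpr h5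
        rw [if_pos ⟨h6, rfl⟩, if_pos h5, Complex.mul_conj']
      · have h6 : ¬ IsUnit (a : ZMod b) := fun h => h5 ((ZMod.isUnit_iff_coprime a b).mp h)
        rw [if_neg fun h => h6 h.1, if_neg h5, zero_mul]
    · rw [if_neg h4, if_neg, zero_mul]
      rintro ⟨-, h5⟩
      apply h4
      rw [ZMod.natCast_eq_natCast_iff] at h5
      have h6 := h5
      unfold Nat.ModEq at h6
      rwa [Nat.mod_eq_of_lt hc, Nat.mod_eq_of_lt ha] at h6
  rw [sum_congr rfl h3, Finset.sum_ite_eq', if_pos (mem_range.mpr ha)]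

end Pool.Agent.H50.GS3
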